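import Pool.Agent.W657.EG.Lat
import Pool.Agent.W78.EC.Defs2

/-! # EG-LCON: entire continuation of the L-functions of imaginary quadratic orders modulo `M` -/

set_option autoImplicit false
set_option maxHeartbeats 4000000

open Filter Topology

namespace Pool.Agent.W657.EG

open Pool.Agent.W78.GA Pool.Agent.W78.EG
open Pool.Agent.W85.EC (Fth exp_bd Fth_hasSum core)
open Pool.Agent.W78.EC (S_THETA)

variable {t c : ℤ}

section

variable {M : ℕ} {φ : Qd t c → ℂ}

/-- one-dimensional theta series -/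
noncomputable def th1 (N : ℕ) (r : ℤ) (T : ℝ) : ℝ :=
  ∑' x : ℤ, Real.exp (-(T * (r + N * x : ℝ) ^ 2))

theorem th1_hasSum (N : ℕ) (hN : 1 ≤ N) (r : ℤ) {T : ℝ} (ht : 0 < T) :
    HasSum (fun x : ℤ => Real.exp (-(T * (r + N * x : ℝ) ^ 2))) (th1 N r T) := by
  apply Summable.hasSum
  have hD : (0 : ℤ) ^ 2 < 4 * 1 := by norm_num
  have h1 := (summ_exp hD ht).comp_injective
    (i := fun x : ℤ => (⟨r + N * x, 0⟩ : Qd 0 1)) (fun x y h => by
      have h2 := congrArg QuadraticAlgebra.re h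
      simp only at h2
      have hM : (N : ℤ) ≠ 0 := by exact_mod_cast (by omega : N ≠ 0)
      exact mul_left_cancel₀ hM (by linarith))
  refine h1.congr fun x => ?_
  simp only [Function.comp_apply]
  rw [nm_castR hD]
  congr 1
  push_cast
  ring

/-- first class for the theta series -/
def r1 (t : ℤ) (M : ℕ) (w : (Fin M × Fin M) × Fin 2) : ℤ :=
  2 * ((w.1.1 : ℕ) : ℤ) + t * (((w.1.2 : ℕ) : ℤ) + M * ((w.2 : ℕ) : ℤ))

/-- second class for the theta series -/
def r2 (M : ℕ) (w : (Fin M × Fin M) × Fin 2) : ℤ := ((w.1.2 : ℕ) : ℤ) + M * ((w.2 : ℕ) : ℤ)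

/-- the decomposition into classes -/
def EF (t c : ℤ) (M : ℕ) (w : ((Fin M × Fin M) × Fin 2) × (ℤ × ℤ)) : Qd t c :=
  ⟨((w.1.1.1 : ℕ) : ℤ) + M * (w.2.1 - t * w.2.2),
    ((w.1.1.2 : ℕ) : ℤ) + M * (2 * w.2.2 + ((w.1.2 : ℕ) : ℤ))⟩

theorem EF_bij (t c : ℤ) (M : ℕ) [NeZero M] : Function.Bijective (EF t c M) := by
  have hM : (M : ℤ) ≠ 0 := by exact_mod_cast NeZero.ne M
  constructor
  · rintro ⟨⟨⟨a, b⟩, e⟩, ⟨u, v⟩⟩ ⟨⟨⟨a', b'⟩, e'⟩, ⟨u', v'⟩⟩ h
    have h1 : ((a : ℕ) : ℤ) + M * (u - t * v) = ((a' : ℕ) : ℤ) + M * (u' - t * v') :=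
      congrArg QuadraticAlgebra.re h
    have h2 : ((b : ℕ) : ℤ) + M * (2 * v + ((e : ℕ) : ℤ))
        = ((b' : ℕ) : ℤ) + M * (2 * v' + ((e' : ℕ) : ℤ)) :=
      congrArg QuadraticAlgebra.im h
    have ha : a = a' := fin_eq ⟨(u' - t * v') - (u - t * v), by linear_combination h1⟩
    have hb : b = b' := fin_eq ⟨(2 * v' + ((e' : ℕ) : ℤ)) - (2 * v + ((e : ℕ) : ℤ)), by
      linear_combination h2⟩
    subst ha hb
    have h3 : 2 * v + ((e : ℕ) : ℤ) = 2 * v' + ((e' : ℕ) : ℤ) :=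
      mul_left_cancel₀ hM (by linarith)
    have h4 : u - t * v = u' - t * v' := mul_left_cancel₀ hM (by linarith)
    have h5 := e.2
    have h6 := e'.2
    have h7 : e = e' := Fin.ext (by omega)
    subst h7
    have h8 : v = v' := by omega
    subst h8
    have h9 : u = u' := by linarith
    subst h9
    rfl
  · intro z
    have hx := dm (M := M) z.re
    have hy := dm (M := M) z.im
    obtain ⟨q1, hq1⟩ : ∃ q, q = (Int.divModEquiv M z.re).1 := ⟨_, rfl⟩
    obtain ⟨q2, hq2⟩ : ∃ q, q = (Int.divModEquiv M z.im).1 := ⟨_, rfl⟩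
    obtain ⟨e, he⟩ : ∃ e : Fin 2, q2 = 2 * (q2 / 2) + ((e : ℕ) : ℤ) := by
      refine ⟨⟨(q2 % 2).toNat, by omega⟩, ?_⟩
      simp only
      omega
    refine ⟨((((Int.divModEquiv M z.re).2, (Int.divModEquiv M z.im).2), e),
      (q1 + t * (q2 / 2), q2 / 2)), ?_⟩
    apply QuadraticAlgebra.ext
    · show (((Int.divModEquiv M z.re).2 : ℕ) : ℤ) + M * (q1 + t * (q2 / 2) - t * (q2 / 2)) = z.re
      rw [← hq1] at hx
      linear_combination -hx
    · show (((Int.divModEquiv M z.im).2 : ℕ) : ℤ) + M * (2 * (q2 / 2) + ((e : ℕ) : ℤ)) = z.im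
      rw [← he]
      rw [← hq2] at hy
      linear_combination -hy

theorem theta_dec (hD : t ^ 2 < 4 * c) [NeZero M] (h : HCh M φ) {T : ℝ} (ht : 0 < T) :
    (uc t c : ℂ) * Fth (aL φ) T + φ 0 =
      ∑ w : (Fin M × Fin M) × Fin 2, φ (lift t c M w.1) *
        ((th1 (2 * M) (r1 t M w) (T / 4) *
          th1 (2 * M) (r2 M w) ((4 * c - t ^ 2) * T / 4) : ℝ) : ℂ) := by
  have hd := disc_pos hD
  have hM1 : 1 ≤ 2 * M := by have := NeZero.ne M; omega
  have h1 := (Equiv.ofBijective _ (EF_bij t c M)).hasSum_iff.2 (theta_eq hD h ht)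
  have h2 : ∀ w : (Fin M × Fin M) × Fin 2, HasSum (fun p : ℤ × ℤ =>
      ((fun z : Qd t c => φ z * ((Real.exp (-(nm z : ℝ) * T) : ℝ) : ℂ)) ∘
        (Equiv.ofBijective _ (EF_bij t c M))) (w, p))
      (φ (lift t c M w.1) * ((th1 (2 * M) (r1 t M w) (T / 4) *
          th1 (2 * M) (r2 M w) ((4 * c - t ^ 2) * T / 4) : ℝ) : ℂ)) := by
    intro w
    have e1 := th1_hasSum (2 * M) hM1 (r1 t M w) (T := T / 4) (by positivity)
    have e2 := th1_hasSum (2 * M) hM1 (r2 M w) (T := (4 * c - t ^ 2) * T / 4) (by positivity)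
    have e3 := e1.mul e2 (e1.summable.mul_of_nonneg e2.summable
      (fun _ => (Real.exp_pos _).le) (fun _ => (Real.exp_pos _).le))
    have e4 := (Complex.hasSum_ofReal.2 e3).mul_left (φ (lift t c M w.1))
    refine e4.congr_fun fun p => ?_
    simp only [Function.comp_apply, Equiv.ofBijective_apply]
    have e5 : φ (EF t c M (w, p)) = φ (lift t c M w.1) := by
      apply h.per
      · exact ⟨p.1 - t * p.2, by
          show ((w.1.1 : ℕ) : ℤ) + M * (p.1 - t * p.2) - ((w.1.1 : ℕ) : ℤ) = _; ring⟩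
      · exact ⟨2 * p.2 + ((w.2 : ℕ) : ℤ), by
          show ((w.1.2 : ℕ) : ℤ) + M * (2 * p.2 + ((w.2 : ℕ) : ℤ)) - ((w.1.2 : ℕ) : ℤ) = _
          ring⟩
    rw [e5, ← Real.exp_add]
    congr 3
    have e6 := nm4 hD (EF t c M (w, p))
    have e7 : (nm (EF t c M (w, p)) : ℝ) = ((2 * (EF t c M (w, p)).re
      + t * (EF t c M (w, p)).im : ℝ) ^ 2 + (4 * c - t ^ 2) * ((EF t c M (w, p)).im : ℝ) ^ 2) / 4 := by
      linarith
    rw [e7]
    simp only [EF, r1, r2]
    push_cast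
    ring
  exact (h1.prod_fiberwise h2).unique (hasSum_fintype _)

theorem th1_le (N : ℕ) (hN : 1 ≤ N) (r : ℤ) {T T' : ℝ} (ht : 0 < T) (h : T ≤ T') :
    th1 N r T' ≤ th1 N r T := by
  refine hasSum_le (fun x => ?_) (th1_hasSum N hN r (ht.trans_le h)) (th1_hasSum N hN r ht)
  apply Real.exp_le_exp.2
  have := sq_nonneg (r + N * x : ℝ)
  nlinarith

theorem th1_nn (N : ℕ) (r : ℤ) (T : ℝ) : 0 ≤ th1 N r T := tsum_nonneg fun _ => (Real.exp_pos _).le

/-- the asymptotic formula on bounded intervals -/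
theorem ext (hT : S_THETA) (N : ℕ) (r : ℤ) (hN : 1 ≤ N) (B : ℝ) (hB : 1 ≤ B) :
    ∃ κ C : ℝ, 0 < κ ∧ 0 < C ∧ ∀ T : ℝ, 0 < T → T ≤ B →
      |th1 N r T - Real.sqrt (Real.pi / T) / N| ≤ C * Real.exp (-(κ / T)) / Real.sqrt T := by
  obtain ⟨κ, C, hκ, hC, hb⟩ := hT N r hN
  obtain ⟨K, hK⟩ : ∃ K, K = th1 N r 1 + Real.sqrt Real.pi / N := ⟨_, rfl⟩
  have hN0 : (0 : ℝ) < N := by exact_mod_cast hN
  have hK0 : 0 ≤ K := by
    rw [hK]
    have := th1_nn N r 1
    positivity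
  refine ⟨κ, C + K * Real.exp κ * Real.sqrt B, hκ, by positivity, fun T hT0 hTB => ?_⟩
  rcases le_or_gt T 1 with h1 | h1
  · refine (hb T hT0 h1).trans ?_
    have : 0 ≤ K * Real.exp κ * Real.sqrt B := by positivity
    have h2 : C * Real.exp (-(κ / T)) ≤ (C + K * Real.exp κ * Real.sqrt B) * Real.exp (-(κ / T)) := by
      apply mul_le_mul_of_nonneg_right (by linarith) (Real.exp_pos _).le
    exact div_le_div_of_nonneg_right h2 (Real.sqrt_nonneg _)
  · have h2 : |th1 N r T - Real.sqrt (Real.pi / T) / N| ≤ K := by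
      have a1 := th1_nn N r T
      have a2 := th1_le N hN r one_pos h1.le
      have a3 : Real.sqrt (Real.pi / T) / N ≤ Real.sqrt Real.pi / N := by
        apply div_le_div_of_nonneg_right _ hN0.le
        apply Real.sqrt_le_sqrt
        exact div_le_self Real.pi_pos.le h1.le
      have a4 : 0 ≤ Real.sqrt (Real.pi / T) / N := by positivity
      rw [abs_le]
      constructor
      · have := th1_nn N r 1
        rw [hK]; linarith
      · rw [hK]
        have : 0 ≤ Real.sqrt Real.pi / N := by positivity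
        linarith
    refine h2.trans ?_
    have hs : Real.sqrt T ≤ Real.sqrt B := Real.sqrt_le_sqrt hTB
    have hs0 : 0 < Real.sqrt T := Real.sqrt_pos.2 hT0
    rw [le_div_iff₀ hs0]
    have h3 : Real.exp (-κ) ≤ Real.exp (-(κ / T)) := by
      apply Real.exp_le_exp.2
      apply neg_le_neg
      exact div_le_self hκ.le h1.le
    have h4 : K * Real.sqrt T ≤ K * Real.sqrt B := mul_le_mul_of_nonneg_left hs hK0
    have h5 : Real.exp κ * Real.exp (-κ) = 1 := by rw [← Real.exp_add]; simp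
    have h6 : K * Real.exp κ * Real.sqrt B * Real.exp (-κ) = K * Real.sqrt B := by
      calc K * Real.exp κ * Real.sqrt B * Real.exp (-κ)
          = K * Real.sqrt B * (Real.exp κ * Real.exp (-κ)) := by ring
        _ = _ := by rw [h5, mul_one]
    have h7 : K * Real.exp κ * Real.sqrt B * Real.exp (-κ) ≤
        K * Real.exp κ * Real.sqrt B * Real.exp (-(κ / T)) :=
      mul_le_mul_of_nonneg_left h3 (by positivity)
    have h8 : 0 ≤ C * Real.exp (-(κ / T)) := by positivity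
    rw [add_mul]
    linarith

theorem prod_bd {x y S S' C K e w : ℝ} (h1 : |x - S| ≤ C * e / w) (h2 : |y - S'| ≤ C * e / w)
    (hS0 : 0 ≤ S) (hS : S ≤ K / w) (hS0' : 0 ≤ S') (hS' : S' ≤ K / w) (he0 : 0 < e) (he1 : e ≤ 1)
    (hw0 : 0 < w) (hC : 0 ≤ C) (hK : 0 ≤ K) :
    |x * y - S * S'| ≤ C * (2 * K + C) * e / w ^ 2 := by
  have hyb : |y| ≤ (K + C) / w := by
    have : |y| ≤ |y - S'| + |S'| := by
      have := abs_add_le (y - S') S'
      simpa using this
    rw [abs_of_nonneg hS0'] at this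
    have h4 : C * e / w ≤ C / w := by
      apply div_le_div_of_nonneg_right _ hw0.le
      nlinarith
    have h5 : (K + C) / w = K / w + C / w := by ring
    rw [h5]; linarith
  have h6 : x * y - S * S' = (x - S) * y + S * (y - S') := by ring
  rw [h6]
  refine (abs_add_le _ _).trans ?_
  rw [abs_mul, abs_mul, abs_of_nonneg hS0]
  have h7 : |x - S| * |y| ≤ (C * e / w) * ((K + C) / w) := by
    apply mul_le_mul h1 hyb (abs_nonneg _) (by positivity)
  have h8 : S * |y - S'| ≤ (K / w) * (C * e / w) :=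
    mul_le_mul hS h2 (abs_nonneg _) (by positivity)
  have h9 : C * (2 * K + C) * e / w ^ 2 = (C * e / w) * ((K + C) / w) + (K / w) * (C * e / w) := by
    field_simp; ring
  rw [h9]
  linarith

theorem asym1 (hT : S_THETA) (N : ℕ) (hN : 1 ≤ N) (ra rb : ℤ) (g : ℝ) (hg : 1 ≤ g) :
    ∃ κ C : ℝ, 0 < κ ∧ 0 < C ∧ ∀ T : ℝ, 0 < T → T ≤ 1 →
      |th1 N ra (T / 4) * th1 N rb (g * T / 4) - 4 * Real.pi / (Real.sqrt g * (N : ℝ) ^ 2) / T| ≤
        C * Real.exp (-(κ / T)) / T := by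
  obtain ⟨κ₁, C₁, hκ₁, hC₁, hb₁⟩ := ext hT N ra hN g hg
  obtain ⟨κ₂, C₂, hκ₂, hC₂, hb₂⟩ := ext hT N rb hN g hg
  have hN1 : (1 : ℝ) ≤ N := by exact_mod_cast hN
  have hg0 : 0 < g := by linarith
  have hsg : 1 ≤ Real.sqrt g := by rw [Real.one_le_sqrt]; exact hg
  set κ := min κ₁ κ₂ / g with hκd
  have hκ : 0 < κ := by rw [hκd]; exact div_pos (lt_min hκ₁ hκ₂) hg0
  set C := 2 * (C₁ + C₂) with hCd
  have hC : 0 < C := by rw [hCd]; positivity
  refine ⟨κ, C * (2 * 4 + C), hκ, by positivity, fun T hT0 hT1 => ?_⟩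
  have hw0 : 0 < Real.sqrt T := Real.sqrt_pos.2 hT0
  have hw2 : Real.sqrt T ^ 2 = T := Real.sq_sqrt hT0.le
  have he1 : Real.exp (-(κ / T)) ≤ 1 := by
    rw [Real.exp_le_one_iff]
    have : 0 < κ / T := by positivity
    linarith
  have s4 : Real.sqrt 4 = 2 := by
    rw [show (4 : ℝ) = 2 ^ 2 by norm_num]; exact Real.sqrt_sq (by norm_num)
  have q1 : Real.sqrt (T / 4) = Real.sqrt T / 2 := by
    rw [Real.sqrt_div hT0.le, s4]
  have q2 : Real.sqrt (g * T / 4) = Real.sqrt g * Real.sqrt T / 2 := by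
    rw [Real.sqrt_div (by positivity), s4, Real.sqrt_mul hg0.le]
  have p1 : Real.sqrt (Real.pi / (T / 4)) = 2 * Real.sqrt Real.pi / Real.sqrt T := by
    rw [Real.sqrt_div Real.pi_pos.le, q1]; field_simp
  have p2 : Real.sqrt (Real.pi / (g * T / 4)) = 2 * Real.sqrt Real.pi / (Real.sqrt g * Real.sqrt T) := by
    rw [Real.sqrt_div Real.pi_pos.le, q2]; field_simp
  have spi : Real.sqrt Real.pi ≤ 2 := by
    rw [← s4]; exact Real.sqrt_le_sqrt Real.pi_le_four
  have b1 := hb₁ (T / 4) (by positivity) (by linarith)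
  have b2 := hb₂ (g * T / 4) (by positivity) (by nlinarith)
  rw [p1, q1] at b1
  rw [p2, q2] at b2
  have hm0 : 0 < min κ₁ κ₂ := lt_min hκ₁ hκ₂
  have x1 : Real.exp (-(κ₁ / (T / 4))) ≤ Real.exp (-(κ / T)) := by
    apply Real.exp_le_exp.2
    apply neg_le_neg
    rw [hκd]
    have : min κ₁ κ₂ / g ≤ κ₁ * 4 := by
      rw [div_le_iff₀ hg0]
      nlinarith [min_le_left κ₁ κ₂]
    calc min κ₁ κ₂ / g / T ≤ κ₁ * 4 / T := by gcongr
      _ = _ := by field_simp
  have x2 : Real.exp (-(κ₂ / (g * T / 4))) ≤ Real.exp (-(κ / T)) := by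
    apply Real.exp_le_exp.2
    apply neg_le_neg
    rw [hκd]
    calc min κ₁ κ₂ / g / T ≤ κ₂ * 4 / g / T := by
          gcongr
          nlinarith [min_le_right κ₁ κ₂]
      _ = _ := by field_simp
  have e0 := Real.exp_pos (-(κ / T))
  have y1 : |th1 N ra (T / 4) - 2 * Real.sqrt Real.pi / Real.sqrt T / N|
      ≤ C * Real.exp (-(κ / T)) / Real.sqrt T := by
    refine b1.trans ?_
    have : C₁ * Real.exp (-(κ₁ / (T / 4))) / (Real.sqrt T / 2)
        = 2 * C₁ * Real.exp (-(κ₁ / (T / 4))) / Real.sqrt T := by field_simp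
    rw [this]
    apply div_le_div_of_nonneg_right _ hw0.le
    apply mul_le_mul _ x1 (Real.exp_pos _).le hC.le
    rw [hCd]; linarith
  have y2 : |th1 N rb (g * T / 4) - 2 * Real.sqrt Real.pi / (Real.sqrt g * Real.sqrt T) / N|
      ≤ C * Real.exp (-(κ / T)) / Real.sqrt T := by
    refine b2.trans ?_
    have : C₂ * Real.exp (-(κ₂ / (g * T / 4))) / (Real.sqrt g * Real.sqrt T / 2)
        = 2 * C₂ / Real.sqrt g * Real.exp (-(κ₂ / (g * T / 4))) / Real.sqrt T := by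
      field_simp
    rw [this]
    apply div_le_div_of_nonneg_right _ hw0.le
    apply mul_le_mul _ x2 (Real.exp_pos _).le hC.le
    have : 2 * C₂ / Real.sqrt g ≤ 2 * C₂ := div_le_self (by positivity) hsg
    rw [hCd]; linarith
  have z1 : 2 * Real.sqrt Real.pi / Real.sqrt T / N ≤ 4 / Real.sqrt T := by
    rw [div_div, div_le_div_iff₀ (by positivity) hw0]
    nlinarith [Real.sqrt_nonneg Real.pi]
  have z2 : 2 * Real.sqrt Real.pi / (Real.sqrt g * Real.sqrt T) / N ≤ 4 / Real.sqrt T := by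
    refine le_trans ?_ z1
    apply div_le_div_of_nonneg_right _ (by positivity)
    apply div_le_div_of_nonneg_left (by positivity) hw0
    nlinarith
  have key := prod_bd y1 y2 (by positivity) z1 (by positivity) z2 e0 he1 hw0 hC.le
    (by norm_num : (0 : ℝ) ≤ 4)
  rw [hw2] at key
  have hS : 2 * Real.sqrt Real.pi / Real.sqrt T / N *
      (2 * Real.sqrt Real.pi / (Real.sqrt g * Real.sqrt T) / N)
      = 4 * Real.pi / (Real.sqrt g * (N : ℝ) ^ 2) / T := by
    have a1 : Real.sqrt Real.pi ^ 2 = Real.pi := Real.sq_sqrt Real.pi_pos.le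
    calc _ = 4 * Real.sqrt Real.pi ^ 2 / (Real.sqrt g * (N : ℝ) ^ 2) / Real.sqrt T ^ 2 := by
          field_simp; ring
      _ = _ := by rw [a1, hw2]
  rw [hS] at key
  exact key

theorem asym2 (hT : S_THETA) (t : ℤ) [NeZero M] (g : ℝ) (hg : 1 ≤ g) : ∃ κ C : ℝ, 0 < κ ∧ 0 < C ∧
    ∀ w : (Fin M × Fin M) × Fin 2, ∀ T : ℝ, 0 < T → T ≤ 1 →
      |th1 (2 * M) (r1 t M w) (T / 4) * th1 (2 * M) (r2 M w) (g * T / 4) -
        Real.pi / (Real.sqrt g * (M : ℝ) ^ 2) / T| ≤ C * Real.exp (-(κ / T)) / T := by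
  have hM : 1 ≤ M := Nat.one_le_iff_ne_zero.2 (NeZero.ne M)
  have hM0 : (0 : ℝ) < M := by exact_mod_cast hM
  have hg0 : 0 < Real.sqrt g := Real.sqrt_pos.2 (by linarith)
  have h1 := fun w : (Fin M × Fin M) × Fin 2 =>
    asym1 hT (2 * M) (by omega) (r1 t M w) (r2 M w) g hg
  choose κr Cr hκ hC hb using h1
  have : Nonempty (Fin M) := ⟨⟨0, hM⟩⟩
  obtain ⟨w1, hw1⟩ := Finite.exists_min κr
  refine ⟨κr w1, ∑ w, Cr w, hκ w1, Finset.sum_pos (fun r _ => hC r) Finset.univ_nonempty,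
    fun w T ht0 ht1 => ?_⟩
  have e0 : 4 * Real.pi / (Real.sqrt g * ((2 * M : ℕ) : ℝ) ^ 2) / T
      = Real.pi / (Real.sqrt g * (M : ℝ) ^ 2) / T := by
    push_cast
    field_simp
    ring
  have h0 := hb w T ht0 ht1
  rw [e0] at h0
  refine h0.trans ?_
  have h2 : Cr w ≤ ∑ w, Cr w :=
    Finset.single_le_sum (f := Cr) (fun r _ => (hC r).le) (Finset.mem_univ w)
  have h3 : Real.exp (-(κr w / T)) ≤ Real.exp (-(κr w1 / T)) := by
    apply Real.exp_le_exp.2
    apply neg_le_neg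
    exact div_le_div_of_nonneg_right (hw1 w) ht0.le
  have := hC w
  have h4 : 0 ≤ ∑ w, Cr w := Finset.sum_nonneg fun r _ => (hC r).le
  gcongr

/-- the sum of the values -/
noncomputable def Ph (M : ℕ) (φ : Qd t c → ℂ) : ℂ := ∑ w : Fin M × Fin M, φ (lift t c M w)

theorem Ph2 (φ : Qd t c → ℂ) :
    ∑ w : (Fin M × Fin M) × Fin 2, φ (lift t c M w.1) = 2 * Ph M φ := by
  rw [Fintype.sum_prod_type, Ph, Finset.mul_sum]
  refine Finset.sum_congr rfl fun w _ => ?_
  simp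

theorem asym3 (hD : t ^ 2 < 4 * c) (hT : S_THETA) [NeZero M] (h : HCh M φ) :
    ∃ κ C : ℝ, 0 < κ ∧ ∀ T : ℝ, 0 < T → T ≤ 1 →
      ‖Fth (aL φ) T - (((2 * Real.pi / (Real.sqrt (4 * c - t ^ 2) * (M : ℝ) ^ 2 * uc t c) : ℝ) : ℂ)
        * Ph M φ / T + -(φ 0) / (uc t c : ℂ))‖ ≤ C * Real.exp (-(κ / T)) / T := by
  have hd := three_le_disc hD
  have hdc := disc_pos hD
  have hu : (0 : ℝ) < uc t c := by exact_mod_cast uc_pos hD
  have huc : (uc t c : ℂ) ≠ 0 := by exact_mod_cast (uc_pos hD).ne'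
  obtain ⟨κ, C, hκ, hC, hb⟩ := asym2 (M := M) hT t (4 * c - t ^ 2) (by linarith)
  obtain ⟨K, hK0, hK⟩ := bounded h
  refine ⟨κ, (M * M * 2 : ℕ) * (K * C) / uc t c, hκ, fun T ht0 ht1 => ?_⟩
  have hM : (M : ℝ) ≠ 0 := by exact_mod_cast NeZero.ne M
  have hs0 : Real.sqrt (4 * c - t ^ 2) ≠ 0 := (Real.sqrt_pos.2 hdc).ne'
  have htc : (T : ℂ) ≠ 0 := by exact_mod_cast ht0.ne'
  set m : ℝ := Real.pi / (Real.sqrt (4 * c - t ^ 2) * (M : ℝ) ^ 2) / T with hm
  have hmc : ((2 * Real.pi / (Real.sqrt (4 * c - t ^ 2) * (M : ℝ) ^ 2 * uc t c) : ℝ) : ℂ)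
      * Ph M φ / T = 2 * Ph M φ * (m : ℂ) / (uc t c : ℂ) := by
    have : (2 * Real.pi / (Real.sqrt (4 * c - t ^ 2) * (M : ℝ) ^ 2 * uc t c) : ℝ)
        = 2 * m * T / uc t c := by
      rw [hm]; field_simp
    rw [this]
    push_cast
    field_simp
  have h1 : Fth (aL φ) T - (((2 * Real.pi / (Real.sqrt (4 * c - t ^ 2) * (M : ℝ) ^ 2 * uc t c) : ℝ)
        : ℂ) * Ph M φ / T + -(φ 0) / (uc t c : ℂ))
      = (∑ w : (Fin M × Fin M) × Fin 2, φ (lift t c M w.1) *
        (((th1 (2 * M) (r1 t M w) (T / 4) * th1 (2 * M) (r2 M w) ((4 * c - t ^ 2) * T / 4) - m : ℝ))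
          : ℂ)) / (uc t c : ℂ) := by
    have h2 := theta_dec hD h ht0
    have h3 : ∑ w : (Fin M × Fin M) × Fin 2, φ (lift t c M w.1) *
        (((th1 (2 * M) (r1 t M w) (T / 4) * th1 (2 * M) (r2 M w) ((4 * c - t ^ 2) * T / 4) - m : ℝ))
          : ℂ)
        = (∑ w : (Fin M × Fin M) × Fin 2, φ (lift t c M w.1) *
          ((th1 (2 * M) (r1 t M w) (T / 4) *
            th1 (2 * M) (r2 M w) ((4 * c - t ^ 2) * T / 4) : ℝ) : ℂ))
          - 2 * Ph M φ * (m : ℂ) := by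
      rw [← Ph2, Finset.sum_mul, ← Finset.sum_sub_distrib]
      refine Finset.sum_congr rfl fun w _ => ?_
      rw [Complex.ofReal_sub]; ring
    rw [h3, ← h2, hmc]
    field_simp
    ring
  rw [h1, norm_div, Complex.norm_natCast]
  have h4 : ‖∑ w : (Fin M × Fin M) × Fin 2, φ (lift t c M w.1) *
        (((th1 (2 * M) (r1 t M w) (T / 4) * th1 (2 * M) (r2 M w) ((4 * c - t ^ 2) * T / 4) - m : ℝ))
          : ℂ)‖
      ≤ ∑ _w : (Fin M × Fin M) × Fin 2, K * (C * Real.exp (-(κ / T)) / T) := by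
    refine (norm_sum_le _ _).trans (Finset.sum_le_sum fun w _ => ?_)
    rw [norm_mul, Complex.norm_real, Real.norm_eq_abs]
    exact mul_le_mul (hK _) (hb w T ht0 ht1) (abs_nonneg _) hK0
  rw [Finset.sum_const, Finset.card_univ, Fintype.card_prod, Fintype.card_prod, Fintype.card_fin,
    Fintype.card_fin, nsmul_eq_mul] at h4
  calc _ ≤ ((M * M * 2 : ℕ) : ℝ) * (K * (C * Real.exp (-(κ / T)) / T)) / uc t c := by gcongr
    _ = _ := by ring

theorem Ph_zero [NeZero M] (h : HCh M φ) {z0 : Qd t c} (h0 : φ z0 ≠ 0) (h1 : φ z0 ≠ 1) :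
    Ph M φ = 0 := by
  have hco := (h.ne z0).1 h0
  set T : Fin M × Fin M → Fin M × Fin M := fun w => rep M (z0 * lift t c M w) with hTd
  have hinj : Function.Injective T := by
    intro w w' hw
    have hw' : rep M (z0 * lift t c M w) = rep M (z0 * lift t c M w') := hw
    have e1 := rep_re (M := M) (z0 * lift t c M w)
    have e2 := rep_re (M := M) (z0 * lift t c M w')
    have e3 := rep_im (M := M) (z0 * lift t c M w)
    have e4 := rep_im (M := M) (z0 * lift t c M w')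
    rw [hw'] at e1 e3
    have e5 : (M : Qd t c) ∣ z0 * (lift t c M w - lift t c M w') := by
      rw [natCast_dvd]
      have f1 := dvd_sub e1 e2
      have f2 := dvd_sub e3 e4
      rw [sub_sub_sub_cancel_right] at f1 f2
      constructor
      · have : (z0 * (lift t c M w - lift t c M w')).re
            = (z0 * lift t c M w).re - (z0 * lift t c M w').re := by
          rw [mul_sub]; rfl
        rw [this]
        exact f1
      · have : (z0 * (lift t c M w - lift t c M w')).im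
            = (z0 * lift t c M w).im - (z0 * lift t c M w').im := by
          rw [mul_sub]; rfl
        rw [this]
        exact f2
    have e6 : (M : Qd t c) ∣ lift t c M w - lift t c M w' := hco.symm.dvd_of_dvd_mul_left e5
    rw [natCast_dvd] at e6
    exact lift_eq e6.1 e6.2
  have hbij : Function.Bijective T := Finite.injective_iff_bijective.1 hinj
  have e1 : Ph M φ = ∑ w : Fin M × Fin M, φ (lift t c M (T w)) :=
    (hbij.sum_comp (fun w => φ (lift t c M w))).symm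
  have e2 : ∀ w : Fin M × Fin M, φ (lift t c M (T w)) = φ z0 * φ (lift t c M w) := by
    intro w
    rw [hTd]
    show φ (lift t c M (rep M (z0 * lift t c M w))) = _
    rw [phi_rep h, h.mul]
  have e3 : Ph M φ = φ z0 * Ph M φ := by
    conv_lhs => rw [e1]
    rw [Finset.sum_congr rfl fun w _ => e2 w, ← Finset.mul_sum]
    rfl
  have e4 : (1 - φ z0) * Ph M φ = 0 := by linear_combination e3
  rcases mul_eq_zero.1 e4 with h5 | h5
  · exact absurd (sub_eq_zero.1 h5).symm h1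
  · exact h5

theorem Ph_ne [NeZero M] (h : HCh M φ) (h1 : ∀ z, φ z ≠ 0 → φ z = 1) : Ph M φ ≠ 0 := by
  intro h0
  have h2 := congrArg Complex.re h0
  rw [Ph, Complex.re_sum, Complex.zero_re] at h2
  have h3 : ∀ w ∈ (Finset.univ : Finset (Fin M × Fin M)), 0 ≤ (φ (lift t c M w)).re := by
    intro w _
    by_cases h4 : φ (lift t c M w) = 0
    · rw [h4]; simp
    · rw [h1 _ h4]; simp
  have h5 := (Finset.sum_eq_zero_iff_of_nonneg h3).1 h2 (rep M (1 : Qd t c)) (Finset.mem_univ _)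
  rw [phi_rep h, h.one] at h5
  simp at h5

theorem phi_zero (h : HCh M φ) {z0 : Qd t c} (h1 : φ z0 ≠ 1) : φ 0 = 0 := by
  by_contra h2
  apply h1
  have h3 := h.mul z0 0
  rw [mul_zero] at h3
  have h4 : (1 - φ z0) * φ 0 = 0 := by linear_combination h3
  rcases mul_eq_zero.1 h4 with h5 | h5
  · exact (sub_eq_zero.1 h5).symm
  · exact absurd h5 h2

end

theorem lcon' (hD : t ^ 2 < 4 * c) (hT : S_THETA) : S_LCON t c := by
  intro M φ hM h
  have : NeZero M := ⟨by omega⟩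
  have hu : (0 : ℝ) < uc t c := by exact_mod_cast uc_pos hD
  have hdc := disc_pos hD
  obtain ⟨κ, C, hκ, hb⟩ := asym3 hD hT h
  obtain ⟨H, hH, hHs⟩ := core (aL φ) (aL_zero hD) (fun σ hσ => aL_summ hD h hσ) _ _ κ C hκ hb
  have hGd : Differentiable ℂ fun s : ℂ => (Complex.Gamma s)⁻¹ :=
    Complex.differentiable_one_div_Gamma
  constructor
  · rintro ⟨z0, h0, h1⟩
    refine ⟨fun s => (Complex.Gamma s)⁻¹ * H s, hGd.mul hH, fun s hs => ?_⟩
    obtain ⟨h2, h3⟩ := hHs s hs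
    refine ⟨h2, ?_⟩
    have hG0 : Complex.Gamma s ≠ 0 := Complex.Gamma_ne_zero_of_re_pos (by linarith)
    rw [Ph_zero h h0 h1, phi_zero h h1] at h3
    simp only [mul_zero, neg_zero, zero_div, add_zero] at h3
    show (Complex.Gamma s)⁻¹ * H s = _
    rw [← h3, inv_mul_cancel_left₀ hG0]
  · intro h1
    set A : ℂ := ((2 * Real.pi / (Real.sqrt (4 * c - t ^ 2) * (M : ℝ) ^ 2 * uc t c) : ℝ) : ℂ)
      * Ph M φ with hA
    have hA0 : A ≠ 0 := by
      rw [hA]
      refine mul_ne_zero ?_ (Ph_ne h h1)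
      have hM0 : (0 : ℝ) < M := by exact_mod_cast hM
      have hs0 : 0 < Real.sqrt (4 * c - t ^ 2) := Real.sqrt_pos.2 hdc
      exact_mod_cast (by positivity :
        (0 : ℝ) < 2 * Real.pi / (Real.sqrt (4 * c - t ^ 2) * (M : ℝ) ^ 2 * uc t c)).ne'
    refine ⟨fun s => (Complex.Gamma s)⁻¹ * ((s - 1) * H s + A)
      + -(φ 0) / (uc t c : ℂ) * ((s - 1) * (Complex.Gamma (s + 1))⁻¹), ?_, ?_, fun s hs => ?_⟩
    · refine (hGd.mul (((differentiable_id.sub_const 1).mul hH).add_const A)).add ?_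
      refine Differentiable.const_mul ?_ _
      refine (differentiable_id.sub_const 1).mul ?_
      exact hGd.comp (differentiable_id.add_const 1)
    · simp only [sub_self, zero_mul, zero_add, mul_zero, add_zero, Complex.Gamma_one, inv_one,
        one_mul]
      exact hA0
    · obtain ⟨h2, h3⟩ := hHs s hs
      refine ⟨h2, ?_⟩
      have hG0 : Complex.Gamma s ≠ 0 := Complex.Gamma_ne_zero_of_re_pos (by linarith)
      have hs0 : s ≠ 0 := by
        intro h0; rw [h0, Complex.zero_re] at hs; linarith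
      have hs1 : s - 1 ≠ 0 := by
        intro h0
        have : s = 1 := sub_eq_zero.1 h0
        rw [this, Complex.one_re] at hs
        linarith
      have huc : (uc t c : ℂ) ≠ 0 := by exact_mod_cast (uc_pos hD).ne'
      have h4 : LSeries (aL φ) s
          = (Complex.Gamma s)⁻¹ * (H s + (A / (s - 1) + -(φ 0) / (uc t c : ℂ) / s)) := by
        rw [← h3, inv_mul_cancel_left₀ hG0]
      show (Complex.Gamma s)⁻¹ * ((s - 1) * H s + A)
        + -(φ 0) / (uc t c : ℂ) * ((s - 1) * (Complex.Gamma (s + 1))⁻¹) = _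
      rw [h4, Complex.Gamma_add_one s hs0]
      field_simp
      ring

theorem lcon {f : ℕ} {χ : DirichletCharacter ℂ f} (hF : Fd t c f χ) (hT : S_THETA) :
    S_LCON t c := by
  refine lcon' ?_ hT
  have h1 := hF.disc
  have h2 := hF.three
  have h3 : (3 : ℤ) ≤ f := by exact_mod_cast h2
  linarith

end Pool.Agent.W657.EG
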