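import Pool.Agent.W78.EG.Defs
import Pool.Agent.W78.GA.Basic
import Pool.Agent.W85.EC.Mel

/-! # EG-LCON: sums over the elements of an imaginary quadratic order -/

set_option autoImplicit false
set_option maxHeartbeats 4000000

open Filter Topology

namespace Pool.Agent.W657.EG

open Pool.Agent.W78.GA Pool.Agent.W78.EG
open Pool.Agent.W85.EC (Fth exp_bd Fth_hasSum core)

variable {t c : ℤ}

theorem cpos (hD : t ^ 2 < 4 * c) : (1 : ℝ) ≤ c := by
  have : 1 ≤ c := by nlinarith [sq_nonneg t]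
  exact_mod_cast this

theorem nm4 (hD : t ^ 2 < 4 * c) (z : Qd t c) :
    4 * (nm z : ℝ) = (2 * z.re + t * z.im : ℝ) ^ 2 + (4 * c - t ^ 2) * (z.im : ℝ) ^ 2 := by
  rw [nm_castR hD]; ring

/-- the elements of norm `n` -/
noncomputable def fib (t c : ℤ) (n : ℕ) : Finset (Qd t c) :=
  if n = 0 then {0} else (ball t c n).filter (fun z => nm z = n)

theorem mem_fib (hD : t ^ 2 < 4 * c) {n : ℕ} {z : Qd t c} : z ∈ fib t c n ↔ nm z = n := by
  unfold fib
  split_ifs with h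
  · rw [Finset.mem_singleton, h, nm_eq_zero hD]
  · rw [Finset.mem_filter, mem_ball hD]
    constructor
    · exact fun h => h.2
    · intro h'
      exact ⟨⟨by omega, by rw [h']⟩, h'⟩

theorem fiber (hD : t ^ 2 < 4 * c) {E : Type} [NormedAddCommGroup E] [CompleteSpace E]
    {g : Qd t c → E} {S : E} (hg : HasSum g S) :
    HasSum (fun n => ∑ z ∈ fib t c n, g z) S := by
  have h1 := hg.tsum_fiberwise (fun z : Qd t c => nm z)
  refine h1.congr_fun fun n => ?_
  have h2 : ((fun z : Qd t c => nm z) ⁻¹' {n}) = (fib t c n : Set (Qd t c)) := by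
    ext z; simp [mem_fib hD]
  rw [h2]
  exact (Finset.tsum_subtype' (fib t c n) g).symm

/-- coordinates -/
def crd : Qd t c ≃ (Fin 2 → ℤ) where
  toFun z := ![z.re, z.im]
  invFun x := ⟨x 0, x 1⟩
  left_inv z := rfl
  right_inv x := by
    funext i; fin_cases i <;> rfl

theorem nm_ge (hD : t ^ 2 < 4 * c) (z : Qd t c) : ‖crd z‖ ^ 2 ≤ 4 * c * (nm z : ℝ) := by
  have hd := three_le_disc hD
  have hc := cpos hD
  have e1 := nm4 hD z
  have e2 : 4 * c * (nm z : ℝ) = (2 * c * z.im + t * z.re : ℝ) ^ 2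
      + (4 * c - t ^ 2) * (z.re : ℝ) ^ 2 := by
    rw [nm_castR hD]; ring
  have h : ‖crd z‖ ≤ Real.sqrt (4 * c * (nm z : ℝ)) := by
    rw [pi_norm_le_iff_of_nonneg (Real.sqrt_nonneg _)]
    intro i
    apply Real.le_sqrt_of_sq_le
    fin_cases i
    · show ‖z.re‖ ^ 2 ≤ _
      rw [Int.norm_eq_abs, sq_abs, e2]
      nlinarith [sq_nonneg (z.re : ℝ), sq_nonneg (2 * c * z.im + t * z.re : ℝ)]
    · show ‖z.im‖ ^ 2 ≤ _
      rw [Int.norm_eq_abs, sq_abs]
      have h1 : (z.im : ℝ) ^ 2 ≤ 4 * (nm z : ℝ) := by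
        rw [e1]
        nlinarith [sq_nonneg (z.im : ℝ), sq_nonneg (2 * z.re + t * z.im : ℝ)]
      have h2 : (0 : ℝ) ≤ nm z := by positivity
      nlinarith
  calc ‖crd z‖ ^ 2 ≤ (Real.sqrt (4 * c * (nm z : ℝ))) ^ 2 := by gcongr
    _ = _ := Real.sq_sqrt (by positivity)

theorem summ_nm (hD : t ^ 2 < 4 * c) {σ : ℝ} (hσ : 1 < σ) :
    Summable fun z : Qd t c => (nm z : ℝ) ^ (-σ) := by
  have hc := cpos hD
  have h1 : Summable fun x : Fin 2 → ℤ => ‖x‖ ^ (-(2 * σ)) :=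
    EisensteinSeries.summable_one_div_norm_rpow (by linarith)
  have h2 : Summable fun z : Qd t c => (4 * c : ℝ) ^ σ * ‖crd z‖ ^ (-(2 * σ)) :=
    (crd.summable_iff.2 h1).mul_left _
  refine Summable.of_nonneg_of_le (fun z => by positivity) (fun z => ?_) h2
  by_cases hz : z = 0
  · subst hz
    have : (nm (0 : Qd t c)) = 0 := (nm_eq_zero hD).2 rfl
    rw [this, Nat.cast_zero, Real.zero_rpow (by linarith)]
    positivity
  · have h3 : 0 < ‖crd z‖ := by
      rw [norm_pos_iff]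
      intro h
      apply hz
      have : crd z = crd (0 : Qd t c) := by rw [h]; funext i; fin_cases i <;> rfl
      exact crd.injective this
    have hn : (0 : ℝ) < nm z := nm_posR hD hz
    have h4 : ‖crd z‖ ^ (-(2 * σ)) = (‖crd z‖ ^ 2) ^ (-σ) := by
      rw [← Real.rpow_natCast, ← Real.rpow_mul h3.le]
      congr 1; push_cast; ring
    have h5 : (4 * c * (nm z : ℝ)) ^ (-σ) ≤ (‖crd z‖ ^ 2) ^ (-σ) :=
      Real.rpow_le_rpow_of_nonpos (by positivity) (nm_ge hD z) (by linarith)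
    rw [h4]
    have h6 : (nm z : ℝ) ^ (-σ) = (4 * c : ℝ) ^ σ * (4 * c * (nm z : ℝ)) ^ (-σ) := by
      rw [Real.mul_rpow (by positivity) hn.le, ← mul_assoc, ← Real.rpow_add (by positivity)]
      simp
    rw [h6]
    exact mul_le_mul_of_nonneg_left h5 (by positivity)

theorem summ_exp (hD : t ^ 2 < 4 * c) {T : ℝ} (ht : 0 < T) :
    Summable fun z : Qd t c => Real.exp (-(nm z : ℝ) * T) := by
  have h1 := (summ_nm hD (σ := 2) (by norm_num)).mul_left (2 / T ^ 2)
  have h2 : Summable fun z : Qd t c => if z = 0 then (1 : ℝ) else 0 :=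
    (hasSum_ite_eq (0 : Qd t c) (1 : ℝ)).summable
  refine Summable.of_nonneg_of_le (fun z => (Real.exp_pos _).le) (fun z => ?_) (h1.add h2)
  by_cases hz : z = 0
  · subst hz
    have : (nm (0 : Qd t c)) = 0 := (nm_eq_zero hD).2 rfl
    rw [this, if_pos rfl]
    simp
  · rw [if_neg hz, add_zero]
    have h3 := exp_bd ht (n := nm z) (fun h => hz ((nm_eq_zero hD).1 h))
    rw [Real.rpow_neg (by positivity), ← one_div]
    exact h3

theorem uc_pos (hD : t ^ 2 < 4 * c) : 0 < uc t c := by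
  unfold uc
  apply Finset.card_pos.2
  refine ⟨1, ?_⟩
  rw [mem_ball hD, nm_one]
  simp

section

variable {M : ℕ} {φ : Qd t c → ℂ}

/-- the classes -/
def lift (t c : ℤ) (M : ℕ) (w : Fin M × Fin M) : Qd t c := ⟨((w.1 : ℕ) : ℤ), ((w.2 : ℕ) : ℤ)⟩

/-- reduction -/
def rep (M : ℕ) [NeZero M] (z : Qd t c) : Fin M × Fin M :=
  ((Int.divModEquiv M z.re).2, (Int.divModEquiv M z.im).2)

theorem dm [NeZero M] (a : ℤ) :
    a = (Int.divModEquiv M a).1 * M + (((Int.divModEquiv M a).2 : ℕ) : ℤ) := by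
  have := (Int.divModEquiv M).symm_apply_apply a
  rw [Int.divModEquiv_symm_apply] at this
  exact this.symm

theorem rep_re [NeZero M] (z : Qd t c) : (M : ℤ) ∣ z.re - (lift t c M (rep M z)).re := by
  have := dm (M := M) z.re
  refine ⟨(Int.divModEquiv M z.re).1, ?_⟩
  show z.re - (((Int.divModEquiv M z.re).2 : ℕ) : ℤ) = _
  linear_combination this

theorem rep_im [NeZero M] (z : Qd t c) : (M : ℤ) ∣ z.im - (lift t c M (rep M z)).im := by
  have := dm (M := M) z.im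
  refine ⟨(Int.divModEquiv M z.im).1, ?_⟩
  show z.im - (((Int.divModEquiv M z.im).2 : ℕ) : ℤ) = _
  linear_combination this

theorem phi_rep [NeZero M] (h : HCh M φ) (z : Qd t c) : φ (lift t c M (rep M z)) = φ z :=
  (h.per _ _ (rep_re z) (rep_im z)).symm

theorem fin_eq {a b : Fin M} (h : (M : ℤ) ∣ ((a : ℕ) : ℤ) - ((b : ℕ) : ℤ)) : a = b := by
  have h1 := Int.eq_zero_of_abs_lt_dvd h (by
    rw [abs_lt]
    have := a.2
    have := b.2
    constructor <;> omega)
  exact Fin.ext (by omega)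

theorem lift_eq {w w' : Fin M × Fin M} (h1 : (M : ℤ) ∣ (lift t c M w).re - (lift t c M w').re)
    (h2 : (M : ℤ) ∣ (lift t c M w).im - (lift t c M w').im) : w = w' :=
  Prod.ext (fin_eq h1) (fin_eq h2)

theorem bounded [NeZero M] (h : HCh M φ) : ∃ K : ℝ, 0 ≤ K ∧ ∀ z, ‖φ z‖ ≤ K := by
  refine ⟨∑ w : Fin M × Fin M, ‖φ (lift t c M w)‖, Finset.sum_nonneg fun _ _ => norm_nonneg _,
    fun z => ?_⟩
  rw [← phi_rep h z]
  exact Finset.single_le_sum (f := fun w : Fin M × Fin M => ‖φ (lift t c M w)‖)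
    (fun _ _ => norm_nonneg _) (Finset.mem_univ (rep M z))

theorem aL_zero (hD : t ^ 2 < 4 * c) : aL φ 0 = 0 := by
  unfold aL
  have : (ball t c ((0 : ℕ) : ℝ)).filter (fun z : Qd t c => nm z = 0) = ∅ := by
    rw [Finset.filter_eq_empty_iff]
    intro z hz
    rw [mem_ball hD] at hz
    omega
  rw [this]; simp

theorem aL_eq {n : ℕ} (hn : n ≠ 0) : aL φ n = (∑ z ∈ fib t c n, φ z) / (uc t c : ℂ) := by
  unfold aL fib
  rw [if_neg hn]

theorem aL_summ (hD : t ^ 2 < 4 * c) [NeZero M] (h : HCh M φ) {σ : ℝ} (hσ : 1 < σ) :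
    Summable fun n : ℕ => ‖aL φ n‖ / (n : ℝ) ^ σ := by
  obtain ⟨K, hK0, hK⟩ := bounded h
  have hu : (0 : ℝ) < uc t c := by exact_mod_cast uc_pos hD
  have h1 := (fiber hD (summ_nm hD hσ).hasSum).summable.mul_left (K / uc t c)
  refine Summable.of_nonneg_of_le (fun n => by positivity) (fun n => ?_) h1
  by_cases hn : n = 0
  · subst hn
    rw [aL_zero hD, norm_zero, zero_div]
    exact mul_nonneg (by positivity) (Finset.sum_nonneg fun _ _ => by positivity)
  · rw [aL_eq hn, norm_div, Complex.norm_natCast]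
    have h2 : ‖∑ z ∈ fib t c n, φ z‖ ≤ ∑ z ∈ fib t c n, K :=
      (norm_sum_le _ _).trans (Finset.sum_le_sum fun z _ => hK z)
    have h3 : ∑ z ∈ fib t c n, (nm z : ℝ) ^ (-σ) = ∑ z ∈ fib t c n, ((n : ℝ) ^ σ)⁻¹ :=
      Finset.sum_congr rfl fun z hz => by
        rw [(mem_fib hD).1 hz, Real.rpow_neg (by positivity)]
    rw [h3]
    rw [Finset.sum_const, nsmul_eq_mul] at h2 ⊢
    have hn0 : (0 : ℝ) < (n : ℝ) ^ σ := by positivity
    calc ‖∑ z ∈ fib t c n, φ z‖ / uc t c / (n : ℝ) ^ σ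
        ≤ ((fib t c n).card * K) / uc t c / (n : ℝ) ^ σ := by gcongr
      _ = _ := by field_simp

/-- the theta function of `φ` -/
theorem theta_eq (hD : t ^ 2 < 4 * c) [NeZero M] (h : HCh M φ) {T : ℝ} (ht : 0 < T) :
    HasSum (fun z : Qd t c => φ z * ((Real.exp (-(nm z : ℝ) * T) : ℝ) : ℂ))
      ((uc t c : ℂ) * Fth (aL φ) T + φ 0) := by
  obtain ⟨K, hK0, hK⟩ := bounded h
  have hu : (uc t c : ℂ) ≠ 0 := by exact_mod_cast (uc_pos hD).ne'
  have hs : Summable (fun z : Qd t c => φ z * ((Real.exp (-(nm z : ℝ) * T) : ℝ) : ℂ)) := by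
    apply Summable.of_norm
    refine Summable.of_nonneg_of_le (fun z => norm_nonneg _) (fun z => ?_)
      ((summ_exp hD ht).mul_left K)
    rw [norm_mul, Complex.norm_real, Real.norm_of_nonneg (Real.exp_pos _).le]
    exact mul_le_mul_of_nonneg_right (hK z) (Real.exp_pos _).le
  have h1 := fiber hD hs.hasSum
  have h2 := (Fth_hasSum (aL_zero (φ := φ) hD) (aL_summ hD h (by norm_num)) ht).mul_left
    (uc t c : ℂ)
  have h3 := h2.add (hasSum_ite_eq (0 : ℕ) (φ 0))
  have h4 : (fun n : ℕ => ∑ z ∈ fib t c n, φ z * ((Real.exp (-(nm z : ℝ) * T) : ℝ) : ℂ))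
      = fun n : ℕ => (uc t c : ℂ) * (aL φ n * ((Real.exp (-(n : ℝ) * T) : ℝ) : ℂ))
        + (if n = 0 then φ 0 else 0) := by
    funext n
    by_cases hn : n = 0
    · subst hn
      have : fib t c 0 = {0} := by unfold fib; rw [if_pos rfl]
      rw [this, Finset.sum_singleton, aL_zero hD, if_pos rfl]
      have : (nm (0 : Qd t c)) = 0 := (nm_eq_zero hD).2 rfl
      rw [this]; simp
    · rw [if_neg hn, aL_eq hn, add_zero]
      have : ∀ z ∈ fib t c n, φ z * ((Real.exp (-(nm z : ℝ) * T) : ℝ) : ℂ)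
          = φ z * ((Real.exp (-(n : ℝ) * T) : ℝ) : ℂ) := fun z hz => by rw [(mem_fib hD).1 hz]
      rw [Finset.sum_congr rfl this, ← Finset.sum_mul]
      field_simp
  rw [h4] at h1
  have h5 := h1.unique h3
  rw [← h5]
  exact hs.hasSum

end

end Pool.Agent.W657.EG
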